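import Mathlib

open Real Finset

namespace Pool.Agent.Results.MP_1bbe3d_pr.NoMLE

/-- The log-likelihood of the Weibull step-stress model: `t` lists the `n₁` failure times up to
`τ`, and `s` the `n₂` failure times after `τ`. -/
noncomputable def loglik (τ η : ℝ) (n : ℕ) {n₁ n₂ : ℕ} (t : Fin n₁ → ℝ) (s : Fin n₂ → ℝ)
    (α θ β : ℝ) : ℝ :=
  (n₁ + n₂ : ℝ) * log α + n₂ * log β - (n₁ + n₂ : ℝ) * α * log θ +
    (α - 1) * (∑ i, log (t i) + ∑ i, log (τ + β * (s i - τ))) -
    θ ^ (-α) * (∑ i, t i ^ α + ∑ i, (τ + β * (s i - τ)) ^ α +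
      (n - (n₁ + n₂) : ℝ) * (τ + β * (η - τ)) ^ α)

theorem log_le (x : ℝ) (hx : 0 < x) : 3 * log x - x ≤ 3 := by
  have h1 := log_le_sub_one_of_pos (div_pos hx (by norm_num : (0 : ℝ) < 3))
  rw [log_div hx.ne' (by norm_num)] at h1
  have h2 := log_le_sub_one_of_pos (by norm_num : (0 : ℝ) < 3)
  linarith

/-- Three items, all failing after the change of stress: the supremum is not attained. -/
theorem result : ∃ (τ η : ℝ) (n n₁ n₂ : ℕ) (t : Fin n₁ → ℝ) (s : Fin n₂ → ℝ),
    0 < τ ∧ τ < η ∧ n₁ + n₂ ≤ n ∧ n₂ ≠ 0 ∧ 3 ≤ n₁ + n₂ ∧ StrictMono t ∧ StrictMono s ∧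
    (∀ i, 0 < t i ∧ t i ≤ τ) ∧ (∀ i, τ < s i ∧ s i ≤ η) ∧
    ∀ α θ β : ℝ, 0 < α → 0 < θ → 0 < β → ∃ α' θ' β' : ℝ, 0 < α' ∧ 0 < θ' ∧ 0 < β' ∧
      loglik τ η n t s α θ β < loglik τ η n t s α' θ' β' := by
  set ε := exp (-20) with hε
  have hε0 : 0 < ε := exp_pos _
  have hε1 : ε ≤ 1 / 21 := by
    rw [hε, exp_neg, one_div]
    exact inv_anti₀ (by norm_num) (by linarith [add_one_le_exp 20])
  -- the likelihood in terms of `c = 1/β` and `φ = θ/β`
  have key : ∀ α φ c : ℝ, 0 < φ → 0 < c →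
      loglik 1 2 3 (Fin.elim0 : Fin 0 → ℝ) ![1 + ε, 1 + 2 * ε, 2] α (φ / c) (1 / c) =
        3 * log α - 3 * α * log φ + (α - 1) * (log (c + ε) + log (c + 2 * ε) + log (c + 1)) -
          (((c + ε) / φ) ^ α + ((c + 2 * ε) / φ) ^ α + ((c + 1) / φ) ^ α) := by
    intro α φ c hφ hc
    have e : ∀ x : ℝ, 1 + 1 / c * (1 + x - 1) = (c + x) / c := fun x => by field_simp; ring
    have e2 : ∀ x : ℝ, 0 < x → (φ / c) ^ (-α) * ((c + x) / c) ^ α = ((c + x) / φ) ^ α :=
      fun x hx => by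
        rw [rpow_neg (by positivity), ← inv_rpow (by positivity),
          ← mul_rpow (by positivity) (by positivity)]
        congr 1
        field_simp
    have e3 := e 1
    rw [one_add_one_eq_two] at e3
    simp only [loglik, Fin.sum_univ_three, Matrix.cons_val_zero, Matrix.cons_val_one,
      Matrix.cons_val_two, Matrix.head_cons, Matrix.tail_cons, e, e3, univ_eq_empty, sum_empty,
      zero_add, mul_add, Nat.cast_ofNat, CharP.cast_eq_zero, sub_self, zero_mul, mul_zero, add_zero]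
    rw [e2 _ hε0, e2 _ (by positivity), e2 _ one_pos, log_div hφ.ne' hc.ne',
      log_div one_ne_zero hc.ne', log_div (by positivity) hc.ne', log_div (by positivity) hc.ne',
      log_div (by positivity) hc.ne', log_one]
    ring
  refine ⟨1, 2, 3, 0, 3, Fin.elim0, ![1 + ε, 1 + 2 * ε, 2], one_pos, one_lt_two, le_rfl,
    by norm_num, le_rfl, fun i => i.elim0, ?_, fun i => i.elim0, ?_, fun α θ β hα hθ hβ => ?_⟩
  · refine Fin.strictMono_iff_lt_succ.2 fun i => ?_
    fin_cases i <;> simp <;> linarith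
  · intro i
    fin_cases i <;> simp <;> first | constructor <;> linarith | norm_num
  obtain ⟨c, hc, rfl⟩ : ∃ c, 0 < c ∧ β = 1 / c := ⟨1 / β, by positivity, by simp⟩
  obtain ⟨φ, hφ, rfl⟩ : ∃ φ, 0 < φ ∧ θ = φ / c := ⟨θ * c, by positivity, by field_simp⟩
  rw [key α φ c hφ hc]
  rcases le_total α 1 with h | h
  · refine ⟨α, φ / (c / 2), 1 / (c / 2), hα, by positivity, by positivity, ?_⟩
    rw [key α φ (c / 2) hφ (by positivity)]
    have h1 : ∀ x : ℝ, 0 < x → log (c / 2 + x) ≤ log (c + x) := fun x hx =>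
      log_le_log (by positivity) (by linarith)
    have h2 : ∀ x : ℝ, 0 < x → ((c / 2 + x) / φ) ^ α < ((c + x) / φ) ^ α := fun x hx =>
      rpow_lt_rpow (by positivity) (div_lt_div_of_pos_right (by linarith) hφ) hα
    have h3 := mul_le_mul_of_nonneg_left (add_le_add (add_le_add (h1 ε hε0)
      (h1 (2 * ε) (by positivity))) (h1 1 one_pos)) (sub_nonneg.2 h)
    linarith [h2 ε hε0, h2 (2 * ε) (by positivity), h2 1 one_pos]
  · refine ⟨1 / 2, 1 / ε, 1 / ε, by norm_num, by positivity, by positivity, ?_⟩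
    rw [key (1 / 2) 1 ε one_pos hε0]
    have h1 : ∀ x : ℝ, 0 < x → x ≤ 1 / 2 → log (c + x) ≤ log (c + 1) - 1 / (2 * (c + 1)) :=
      fun x hx hx' => by
        have h2 := log_le_sub_one_of_pos (div_pos (by positivity : 0 < c + x)
          (by positivity : 0 < c + 1))
        rw [log_div (by positivity) (by positivity)] at h2
        have h3 : (c + x) / (c + 1) - 1 ≤ -(1 / (2 * (c + 1))) := by
          rw [div_sub_one (by positivity), ← neg_div, div_le_div_iff₀ (by positivity)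
            (by positivity)]
          nlinarith
        linarith
    have h2 := log_le _ (rpow_pos_of_pos (div_pos (by positivity : 0 < c + 1) hφ) α)
    rw [log_rpow (by positivity), log_div (by positivity) hφ.ne'] at h2
    have h3 := log_le _ (div_pos hα (by positivity : 0 < c + 1))
    rw [log_div hα.ne' (by positivity)] at h3
    have h4 := mul_le_mul_of_nonneg_left (add_le_add (h1 ε hε0 (by linarith))
      (h1 (2 * ε) (by positivity) (by linarith))) (sub_nonneg.2 h)
    have h5 : (α - 1) * (1 / (2 * (c + 1))) = (α / (c + 1) - 1 / (c + 1)) / 2 := by field_simp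
    have h6 : 1 / (c + 1) ≤ 1 := (div_le_one (by positivity)).2 (by linarith)
    have h7 : 0 ≤ ((c + ε) / φ) ^ α := by positivity
    have h8 : 0 ≤ ((c + 2 * ε) / φ) ^ α := by positivity
    have h9 : ∀ x : ℝ, 0 < x → x ≤ 4 → (x / 1) ^ (1 / 2 : ℝ) ≤ 2 := fun x hx hx' => by
      rw [div_one, ← sqrt_eq_rpow]
      exact sqrt_le_iff.2 ⟨by norm_num, by linarith⟩
    have h10 : ∀ k : ℝ, 0 < k → log (k * ε) ≤ k - 21 := fun k hk => by
      rw [log_mul hk.ne' hε0.ne', hε, log_exp]
      linarith [log_le_sub_one_of_pos hk]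
    have h11 := h10 2 two_pos
    have h12 := h10 3 (by norm_num)
    have h13 := log_le_sub_one_of_pos (by positivity : 0 < ε + 1)
    have h14 : -1 ≤ log (1 / 2) := by
      rw [one_div, log_inv]
      linarith [log_le_sub_one_of_pos two_pos]
    rw [show ε + ε = 2 * ε by ring, show ε + 2 * ε = 3 * ε by ring, log_one]
    nlinarith [h9 (2 * ε) (by positivity) (by linarith), h9 (3 * ε) (by positivity) (by linarith),
      h9 (ε + 1) (by positivity) (by linarith)]

end Pool.Agent.Results.MP_1bbe3d_pr.NoMLE
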